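import Pool.Agent.Helper30.UB.St

/-! # Project UB, module DKT -/

set_option autoImplicit false

open Polynomial

namespace Pool.Agent.Helper48.UB

open Finset
open Pool.Agent.Helper15.FC
open Pool.Agent.Helper30.UB

private theorem nf_prod {F : Type} [Field F] {f : F[X]} (hf : f.Monic) : (nf f).prod = f := by
  classical
  unfold nf
  rw [UniqueFactorizationMonoid.prod_normalizedFactors_eq hf.ne_zero]
  exact hf.normalize_eq_self

private theorem nf_mem {F : Type} [Field F] {f p : F[X]} (hp : p ∈ nf f) :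
    Irreducible p ∧ p.Monic ∧ p ∣ f := by
  classical
  unfold nf at hp
  have h1 := UniqueFactorizationMonoid.irreducible_of_normalized_factor p hp
  have h2 := UniqueFactorizationMonoid.normalize_normalized_factor p hp
  refine ⟨h1, ?_, UniqueFactorizationMonoid.dvd_of_mem_normalizedFactors hp⟩
  rw [← h2]
  exact Polynomial.monic_normalize h1.ne_zero

private theorem mon_prod {F : Type} [Field F] (t : Multiset F[X]) (h : ∀ p ∈ t, p.Monic) :
    t.prod.Monic := by
  have := Polynomial.monic_multiset_prod_of_monic t (fun p : F[X] => p) h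
  rwa [Multiset.map_id'] at this

private theorem quo {F : Type} [Field F] {f g : F[X]} (hf : f.Monic) (hg : g.Monic) (h : g ∣ f) :
    (f / g).Monic ∧ g * (f / g) = f := by
  obtain ⟨c, rfl⟩ := h
  have h1 : g * c / g = c := mul_div_cancel_left₀ c hg.ne_zero
  rw [h1]
  exact ⟨Polynomial.Monic.of_mul_monic_left hg hf, rfl⟩

private theorem part1 (hR : StDKR) (F : Type) [Field F] [Fintype F] (k : ℕ) (f : F[X])
    (hf : f.Monic) : dk (k + 1) f = ∑ g ∈ Dv f, dk k g := by
  rw [(hR F).2.1 k f hf]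
  have key : ∀ g ∈ Dv f, f / g ∈ Dv f ∧ f / (f / g) = g := by
    intro g hg
    rw [mem_Dv hf.ne_zero] at hg
    obtain ⟨h1, h2⟩ := quo hf hg.1 hg.2
    refine ⟨?_, ?_⟩
    · rw [mem_Dv hf.ne_zero]
      exact ⟨h1, ⟨g, by rw [mul_comm]; exact h2.symm⟩⟩
    · have h3 : f = (f / g) * g := by rw [mul_comm]; exact h2.symm
      calc f / (f / g) = ((f / g) * g) / (f / g) := by rw [← h3]
        _ = g := mul_div_cancel_left₀ g h1.ne_zero
  exact Finset.sum_nbij' (fun g => f / g) (fun g => f / g) (fun g hg => (key g hg).1)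
    (fun g hg => (key g hg).1) (fun g hg => (key g hg).2) (fun g hg => (key g hg).2)
    (fun g _ => rfl)

theorem hDKT (hR : StDKR) (hS : StDKS) : StDKT := by
  intro F _ _
  refine ⟨part1 hR F, ?_⟩
  intro k n L z f hk hz hf hL
  classical
  obtain ⟨hfm, hfn⟩ := mem_Mn.1 hf
  set M1 := (nf f).filter (fun p => (p.natDegree : ℝ) ≤ z) with hM1
  set M2 := (nf f).filter (fun p => ¬ (p.natDegree : ℝ) ≤ z) with hM2
  have m1 : ∀ p ∈ M1, p ∈ nf f ∧ (p.natDegree : ℝ) ≤ z := fun p hp => Multiset.mem_filter.1 hp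
  have m2 : ∀ p ∈ M2, p ∈ nf f ∧ ¬ (p.natDegree : ℝ) ≤ z := fun p hp => Multiset.mem_filter.1 hp
  have hsr : M1.prod * M2.prod = f := by
    rw [← Multiset.prod_add, hM1, hM2, Multiset.filter_add_not, nf_prod hfm]
  have hs : M1.prod.Monic := mon_prod M1 (fun p hp => (nf_mem (m1 p hp).1).2.1)
  have hr : M2.prod.Monic := mon_prod M2 (fun p hp => (nf_mem (m2 p hp).1).2.1)
  have hsL : M1.prod.natDegree ≤ L := by
    rw [Polynomial.natDegree_multiset_prod_of_monic M1 (fun p hp => (nf_mem (m1 p hp).1).2.1)]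
    refine le_trans (le_of_eq ?_) hL
    unfold DD
    congr 2
    refine Multiset.filter_congr fun p hp => ?_
    have h1 : (0 : ℝ) < (p.natDegree : ℝ) := by exact_mod_cast (nf_mem hp).1.natDegree_pos
    exact ⟨fun h => ⟨h1, h⟩, fun h => h.2⟩
  have hrn : M2.prod.natDegree ≤ n := by
    have h1 := hs.natDegree_mul hr
    rw [hsr, hfn] at h1
    omega
  -- the number of prime factors of the second part
  have hcard : (Multiset.card (nf M2.prod) : ℝ) ≤ (n : ℝ) / z := by
    rw [le_div_iff₀ hz]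
    have h1 : ∀ x ∈ (nf M2.prod).map (fun p => (p.natDegree : ℝ)), z ≤ x := by
      intro x hx
      obtain ⟨p, hp, rfl⟩ := Multiset.mem_map.1 hx
      obtain ⟨i1, i2, i3⟩ := nf_mem hp
      obtain ⟨b, hb, hpb⟩ := i1.prime.exists_mem_multiset_dvd i3
      obtain ⟨j1, j2, _⟩ := nf_mem (m2 b hb).1
      have h2 : Associated p b := i1.associated_of_dvd j1 hpb
      have h3 : p = b := Polynomial.eq_of_monic_of_associated i2 j2 h2
      rw [h3]
      exact (not_le.1 (m2 b hb).2).le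
    have h2 := Multiset.card_nsmul_le_sum h1
    rw [Multiset.card_map, nsmul_eq_mul] at h2
    refine h2.trans ?_
    have h3 : ((nf M2.prod).map (fun p => (p.natDegree : ℝ))).sum = ((M2.prod.natDegree : ℕ) : ℝ) := by
      conv_rhs => rw [← nf_prod hr]
      rw [Polynomial.natDegree_multiset_prod_of_monic _ (fun p hp => (nf_mem hp).2.1),
        Nat.cast_multiset_sum, Multiset.map_map]
      rfl
    rw [h3]
    exact_mod_cast hrn
  have hk1 : (1 : ℝ) ≤ (k : ℝ) := by exact_mod_cast hk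
  have e1 : (dk k M2.prod : ℝ) ≤ (k : ℝ) ^ ((n : ℝ) / z) := by
    have h1 : (dk k M2.prod : ℝ) ≤ (k : ℝ) ^ (Multiset.card (nf M2.prod)) := by
      exact_mod_cast (hS F k).2 _ hr
    refine h1.trans ?_
    rw [← Real.rpow_natCast]
    exact Real.rpow_le_rpow_of_exponent_le hk1 hcard
  have e2 : (dk k M1.prod : ℝ) ≤ Tk k L f := by
    obtain ⟨k', rfl⟩ : ∃ k', k = k' + 1 := ⟨k - 1, by omega⟩
    rw [part1 hR F k' _ hs]
    unfold Tk
    rw [Nat.cast_sum, Nat.add_sub_cancel]
    refine Finset.sum_le_sum_of_subset_of_nonneg ?_ (fun g _ _ => Nat.cast_nonneg _)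
    intro g hg
    rw [mem_Dv hs.ne_zero] at hg
    rw [Finset.mem_filter, mem_Dv hfm.ne_zero]
    refine ⟨⟨hg.1, hg.2.trans ⟨M2.prod, hsr.symm⟩⟩, ?_⟩
    exact (Polynomial.natDegree_le_of_dvd hg.2 hs.ne_zero).trans hsL
  have e3 : (dk k f : ℝ) ≤ (dk k M1.prod : ℝ) * (dk k M2.prod : ℝ) := by
    have h1 := (hS F k).1 _ _ hs hr
    rw [hsr] at h1
    exact_mod_cast h1
  have e4 : (0 : ℝ) ≤ (dk k M2.prod : ℝ) := Nat.cast_nonneg _
  have e5 : (0 : ℝ) ≤ Tk k L f := Finset.sum_nonneg fun g _ => Nat.cast_nonneg _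
  calc (dk k f : ℝ) ≤ (dk k M1.prod : ℝ) * (dk k M2.prod : ℝ) := e3
    _ ≤ Tk k L f * (k : ℝ) ^ ((n : ℝ) / z) := mul_le_mul e2 e1 e4 e5
    _ = (k : ℝ) ^ ((n : ℝ) / z) * Tk k L f := mul_comm _ _

end Pool.Agent.Helper48.UB
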